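import Mathlib
import Pool.Agent.Q16.SQ.Stm5

/-!
# The triangle with angles pi/6, pi/3, pi/2 is cut into three congruent triangles
-/

set_option autoImplicit false

namespace Pool.Agent.Q259.SQ

open Q16.SQ Pool.Agent.Helper549.Tri

theorem triSet_comp (T : Fin 3 → E2) (e : Fin 3 ≃ Fin 3) : TriSet (T ∘ e) = TriSet T := by
  unfold TriSet
  rw [Set.range_comp, e.range_eq_univ, Set.image_univ]

theorem dist_of_sq (a b c d : E2) (h : dist a b ^ 2 = dist c d ^ 2) : dist a b = dist c d := by
  have h1 : 0 ≤ dist a b := dist_nonneg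
  have h2 : 0 ≤ dist c d := dist_nonneg
  exact (sq_eq_sq₀ h1 h2).1 h

theorem nsq (x y : E2) (h0 : inner ℝ x y = 0) (a b : ℝ) :
    ‖a • x + b • y‖ ^ 2 = a ^ 2 * ‖x‖ ^ 2 + b ^ 2 * ‖y‖ ^ 2 := by
  rw [norm_add_sq_real, norm_smul, norm_smul, real_inner_smul_left, real_inner_smul_right, h0,
    Real.norm_eq_abs, Real.norm_eq_abs, mul_pow, mul_pow, sq_abs, sq_abs]
  ring

theorem main (h1 : S_ISOM) (h2 : S_SPLIT) (A B C : E2) (hT : AffineIndependent ℝ ![A, B, C])
    (hA : EuclideanGeometry.angle B A C = Real.pi / 3)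
    (hC : EuclideanGeometry.angle A C B = Real.pi / 6) : CanCut ![A, B, C] 3 := by
  have hAB : A ≠ B := fun h => by
    have := hT.injective.ne (show (0 : Fin 3) ≠ 1 by decide)
    exact this (by simpa using h)
  have hBC : B ≠ C := fun h => by
    have := hT.injective.ne (show (1 : Fin 3) ≠ 2 by decide)
    exact this (by simpa using h)
  have hAC : A ≠ C := fun h => by
    have := hT.injective.ne (show (0 : Fin 3) ≠ 2 by decide)
    exact this (by simpa using h)
  have hB : EuclideanGeometry.angle C B A = Real.pi / 2 := by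
    have := EuclideanGeometry.angle_add_angle_add_angle_eq_pi (p₁ := A) (p₂ := B) C hAB.symm
    rw [EuclideanGeometry.angle_comm A B C] at this
    rw [EuclideanGeometry.angle_comm B C A, hC, EuclideanGeometry.angle_comm C A B, hA] at this
    linarith
  set x : E2 := A - B with hx
  set y : E2 := C - B with hy
  have h0 : inner ℝ x y = 0 := by
    have := InnerProductGeometry.inner_eq_zero_iff_angle_eq_pi_div_two (C - B) (A - B)
    rw [real_inner_comm]
    exact this.2 hB
  have h3 : ‖y‖ ^ 2 = 3 * ‖x‖ ^ 2 := by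
    have hcos := InnerProductGeometry.cos_angle (B - A) (C - A)
    have e : InnerProductGeometry.angle (B - A) (C - A) = Real.pi / 3 := hA
    rw [e, Real.cos_pi_div_three] at hcos
    have eBA : B - A = (-1 : ℝ) • x + (0 : ℝ) • y := by rw [hx]; module
    have eCA : C - A = (-1 : ℝ) • x + (1 : ℝ) • y := by rw [hx, hy]; module
    have hin : inner ℝ (B - A) (C - A) = ‖x‖ ^ 2 := by
      rw [eBA, eCA]
      simp [inner_add_right, h0]
    have hn : ‖B - A‖ = ‖x‖ := by rw [hx, norm_sub_rev]
    have hxp : 0 < ‖x‖ := norm_pos_iff.2 (sub_ne_zero.2 hAB)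
    have hcp : 0 < ‖C - A‖ := norm_pos_iff.2 (sub_ne_zero.2 hAC.symm)
    rw [hin, hn] at hcos
    have hc2 : ‖C - A‖ = 2 * ‖x‖ := by
      field_simp at hcos
      nlinarith
    have hsq := nsq x y h0 (-1) 1
    rw [← eCA, hc2] at hsq
    nlinarith
  set D : E2 := AffineMap.lineMap B C (1 / 3 : ℝ) with hD
  set F : E2 := AffineMap.lineMap A C (1 / 2 : ℝ) with hF
  have eD : D = B + (1 / 3 : ℝ) • y := by
    rw [hD, AffineMap.lineMap_apply, hy]
    simp [add_comm]
  have eF : F = A + (1 / 2 : ℝ) • (C - A) := by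
    rw [hF, AffineMap.lineMap_apply]
    simp [add_comm]
  have s1 := h2 ![A, B, C] hT (1 / 3) (by norm_num) (by norm_num)
  simp only [Matrix.cons_val_zero, Matrix.cons_val_one, Matrix.cons_val] at s1
  rw [← hD] at s1
  obtain ⟨i1, i2, hU, hDj⟩ := s1
  have iDAC : AffineIndependent ℝ ![D, A, C] := by
    have := i2.comp_embedding (⟨![2, 0, 1], by decide⟩ : Fin 3 ↪ Fin 3)
    convert this using 1
    funext i
    fin_cases i <;> rfl
  have iDAB : AffineIndependent ℝ ![D, A, B] := by
    have := i1.comp_embedding (⟨![2, 0, 1], by decide⟩ : Fin 3 ↪ Fin 3)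
    convert this using 1
    funext i
    fin_cases i <;> rfl
  have r : ∀ X Y Z : E2, TriSet ![X, Y, Z] = TriSet ![Z, X, Y] := by
    intro X Y Z
    unfold TriSet
    congr 1
    ext p
    simp only [Matrix.range_cons, Matrix.range_empty, Set.mem_union, Set.mem_singleton_iff,
      Set.mem_empty_iff_false, or_false]
    tauto
  rw [r A B D, r A C D] at hU hDj
  have s2 := h2 ![D, A, C] iDAC (1 / 2) (by norm_num) (by norm_num)
  simp only [Matrix.cons_val_zero, Matrix.cons_val_one, Matrix.cons_val] at s2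
  rw [← hF] at s2
  obtain ⟨j1, j2, hU2, hDj2⟩ := s2
  have dDA : dist D A ^ 2 = 4 / 3 * ‖x‖ ^ 2 := by
    have : D - A = (-1 : ℝ) • x + (1 / 3 : ℝ) • y := by rw [eD, hx, hy]; module
    rw [dist_eq_norm, this, nsq x y h0, h3]; ring
  have dDB : dist D B ^ 2 = 1 / 3 * ‖x‖ ^ 2 := by
    have : D - B = (0 : ℝ) • x + (1 / 3 : ℝ) • y := by rw [eD, hx, hy]; module
    rw [dist_eq_norm, this, nsq x y h0, h3]; ring
  have dAB : dist A B ^ 2 = ‖x‖ ^ 2 := by
    rw [dist_eq_norm]
  have dDF : dist D F ^ 2 = 1 / 3 * ‖x‖ ^ 2 := by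
    have : D - F = (-1 / 2 : ℝ) • x + (-1 / 6 : ℝ) • y := by rw [eD, eF, hx, hy]; module
    rw [dist_eq_norm, this, nsq x y h0, h3]; ring
  have dAF : dist A F ^ 2 = ‖x‖ ^ 2 := by
    have : A - F = (1 / 2 : ℝ) • x + (-1 / 2 : ℝ) • y := by rw [eF, hx, hy]; module
    rw [dist_eq_norm, this, nsq x y h0, h3]; ring
  have dDC : dist D C ^ 2 = 4 / 3 * ‖x‖ ^ 2 := by
    have : D - C = (0 : ℝ) • x + (-2 / 3 : ℝ) • y := by rw [eD, hy]; module
    rw [dist_eq_norm, this, nsq x y h0, h3]; ring
  have dCF : dist C F ^ 2 = ‖x‖ ^ 2 := by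
    have : C - F = (-1 / 2 : ℝ) • x + (1 / 2 : ℝ) • y := by rw [eF, hx, hy]; module
    rw [dist_eq_norm, this, nsq x y h0, h3]; ring
  have q : ∀ X Y Z X' Y' Z' : E2, dist X Y ^ 2 = dist X' Y' ^ 2 → dist X Z ^ 2 = dist X' Z' ^ 2 →
      dist Y Z ^ 2 = dist Y' Z' ^ 2 → ∀ i j, dist ((![X, Y, Z] : Fin 3 → E2) i)
        ((![X, Y, Z] : Fin 3 → E2) j) =
      dist ((![X', Y', Z'] : Fin 3 → E2) i) ((![X', Y', Z'] : Fin 3 → E2) j) := by
    intro X Y Z X' Y' Z' a1 a2 a3 i j
    have b1 := dist_of_sq _ _ _ _ a1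
    have b2 := dist_of_sq _ _ _ _ a2
    have b3 := dist_of_sq _ _ _ _ a3
    fin_cases i <;> fin_cases j
    · simp
    · simpa using b1
    · simpa using b2
    · simpa [dist_comm] using b1
    · simp
    · simpa using b3
    · simpa [dist_comm] using b2
    · simpa [dist_comm] using b3
    · simp
  set P : Fin 3 → Fin 3 → E2 := ![![D, A, B], ![D, A, F], ![D, C, F]] with hP
  have hPd : ∀ i j a b, dist (P i a) (P i b) = dist (P j a) (P j b) := by
    have k01 : ∀ a b, dist (P 0 a) (P 0 b) = dist (P 1 a) (P 1 b) :=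
      q D A B D A F rfl (dDB.trans dDF.symm) (dAB.trans dAF.symm)
    have k12 : ∀ a b, dist (P 1 a) (P 1 b) = dist (P 2 a) (P 2 b) :=
      q D A F D C F (dDA.trans dDC.symm) rfl (dAF.trans dCF.symm)
    intro i j a b
    fin_cases i <;> fin_cases j
    · rfl
    · exact k01 a b
    · exact (k01 a b).trans (k12 a b)
    · exact (k01 a b).symm
    · rfl
    · exact k12 a b
    · exact ((k01 a b).trans (k12 a b)).symm
    · exact (k12 a b).symm
    · rfl
  have hPi : ∀ i, AffineIndependent ℝ (P i) := by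
    intro i
    fin_cases i
    · exact iDAB
    · exact j1
    · exact j2
  have sub1 : interior (TriSet ![D, A, F]) ⊆ interior (TriSet ![D, A, C]) :=
    interior_mono (by rw [← hU2]; exact Set.subset_union_left)
  have sub2 : interior (TriSet ![D, C, F]) ⊆ interior (TriSet ![D, A, C]) :=
    interior_mono (by rw [← hU2]; exact Set.subset_union_right)
  have c01 : Disjoint (interior (TriSet ![D, A, B])) (interior (TriSet ![D, A, F])) :=
    hDj.mono_right sub1
  have c02 : Disjoint (interior (TriSet ![D, A, B])) (interior (TriSet ![D, C, F])) :=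
    hDj.mono_right sub2
  refine ⟨P, hPi, fun i j => h1 _ _ (hPi i) (hPd i j), ?_, ?_⟩
  · rw [← hU, ← hU2]
    ext p
    simp [hP, Fin.exists_fin_succ]
  · intro i j hij
    fin_cases i <;> fin_cases j
    · exact absurd rfl hij
    · exact c01
    · exact c02
    · exact c01.symm
    · exact absurd rfl hij
    · exact hDj2
    · exact c02.symm
    · exact hDj2.symm
    · exact absurd rfl hij

theorem t_CUT3 (h1 : S_ISOM) (h2 : S_SPLIT) : S_CUT3 := by
  intro T hT i j hi hj
  have key : ∀ a b c : Fin 3, ∀ f : Fin 3 ≃ Fin 3, f 0 = a → f 1 = b → f 2 = c →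
      EuclideanGeometry.angle (T b) (T a) (T c) = Real.pi / 3 →
      EuclideanGeometry.angle (T a) (T c) (T b) = Real.pi / 6 → CanCut T 3 := by
    intro a b c f fa fb fc g1 g2
    have e : (![T a, T b, T c] : Fin 3 → E2) = T ∘ f := by
      funext m
      fin_cases m
      · simp [fa]
      · simp [fb]
      · simp [fc]
    have hi' : AffineIndependent ℝ ![T a, T b, T c] := by
      rw [e]
      exact hT.comp_embedding f.toEmbedding
    obtain ⟨P, p1, p2, p3, p4⟩ := main h1 h2 _ _ _ hi' g1 g2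
    refine ⟨P, p1, p2, ?_, p4⟩
    rw [p3, e, triSet_comp]
  have hne : Real.pi / 6 ≠ Real.pi / 3 := by
    intro h
    have := Real.pi_pos
    linarith
  unfold angle at hi hj
  fin_cases i <;> fin_cases j
  · exact absurd (hi.symm.trans hj) hne
  · exact key 1 2 0 ⟨![1, 2, 0], ![2, 0, 1], by decide, by decide⟩ rfl rfl rfl
      (by simpa using hj) (by simpa [EuclideanGeometry.angle_comm] using hi)
  · exact key 2 1 0 ⟨![2, 1, 0], ![2, 1, 0], by decide, by decide⟩ rfl rfl rfl
      (by simpa [EuclideanGeometry.angle_comm] using hj)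
      (by simpa [EuclideanGeometry.angle_comm] using hi)
  · exact key 0 2 1 ⟨![0, 2, 1], ![0, 2, 1], by decide, by decide⟩ rfl rfl rfl
      (by simpa [EuclideanGeometry.angle_comm] using hj)
      (by simpa [EuclideanGeometry.angle_comm] using hi)
  · exact absurd (hi.symm.trans hj) hne
  · exact key 2 0 1 ⟨![2, 0, 1], ![1, 2, 0], by decide, by decide⟩ rfl rfl rfl
      (by simpa [EuclideanGeometry.angle_comm] using hj)
      (by simpa [EuclideanGeometry.angle_comm] using hi)
  · exact key 0 1 2 ⟨![0, 1, 2], ![0, 1, 2], by decide, by decide⟩ rfl rfl rfl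
      (by simpa [EuclideanGeometry.angle_comm] using hj)
      (by simpa [EuclideanGeometry.angle_comm] using hi)
  · exact key 1 0 2 ⟨![1, 0, 2], ![1, 0, 2], by decide, by decide⟩ rfl rfl rfl
      (by simpa [EuclideanGeometry.angle_comm] using hj)
      (by simpa [EuclideanGeometry.angle_comm] using hi)
  · exact absurd (hi.symm.trans hj) hne

end Pool.Agent.Q259.SQ
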