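import Pool.Agent.Q17.ML2.Stm
import Pool.Agent.TH365.J3099

/-!
# Few extensions with the group `(H, H ⧸ W)`

`t_FG`: summability of `dsc M ^ (-1/4)` over the extensions `M` of `K` with group `(H, H ⧸ W)`. The counting is as in
`Pool.Agent.TH228.J3101.fewGalRel`.
-/

set_option autoImplicit false

open NumberField Filter Topology

namespace Pool.Agent.Q259.CA_FG

open Pool.Agent.Q17.ML2
open Pool.Agent.TH444.ML (dsc Gal)
open Pool.Agent.TH365.J3099 (act act_apply act_apply_apply ker_act)

section field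

variable {K Ω : Type} [Field K] [NumberField K] [Field Ω] [Algebra K Ω]

lemma nf (M : IntermediateField K Ω) [FiniteDimensional K M] : NumberField M :=
  NumberField.of_module_finite K M

omit [NumberField K] in
lemma dsc_eq (M : IntermediateField K Ω) [h : NumberField M] :
    dsc M = ((discr M).natAbs : ℝ) := by
  unfold dsc
  rw [dif_pos h, ← Int.natCast_natAbs, Int.cast_natCast]

omit [NumberField K] in
lemma one_le (M : IntermediateField K Ω) [h : NumberField M] : 1 ≤ (discr M).natAbs :=
  Int.natAbs_pos.2 (discr_ne_zero M)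

/-- discriminants in towers -/
lemma dsc_tower (F M : IntermediateField K Ω) (hFM : F ≤ M) [FiniteDimensional K M] (m : ℕ)
    (hm : Module.finrank K F * m = Module.finrank K M) : dsc F ^ m ≤ dsc M := by
  have hfdF : FiniteDimensional K F :=
    (IntermediateField.restrictAlgEquiv hFM).symm.toLinearEquiv.finiteDimensional
  have hnM : NumberField M := nf M
  have hnF : NumberField F := nf F
  set F0 : IntermediateField K M := IntermediateField.restrict hFM with hF0
  have hnF0 : NumberField F0 := NumberField.of_module_finite K F0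
  have hal : F ≃ₐ[K] F0 := IntermediateField.restrictAlgEquiv hFM
  have h0 : Module.finrank K F0 = Module.finrank K F := hal.toLinearEquiv.finrank_eq.symm
  have h1 : Module.finrank F0 M = m := by
    have h3 := Module.finrank_mul_finrank K F0 M
    rw [h0, ← hm] at h3
    exact Nat.eq_of_mul_eq_mul_left Module.finrank_pos h3
  rw [dsc_eq, dsc_eq]
  have e1 : discr F = discr F0 := discr_eq_discr_of_ringEquiv F hal.toRingEquiv
  rw [e1]
  have h3 := natAbs_discr_eq_absNorm_differentIdeal_mul_natAbs_discr_pow F0 (𝓞 F0) M (𝓞 M)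
  rw [h1] at h3
  have h4 : (discr M).natAbs ≠ 0 := Nat.one_le_iff_ne_zero.1 (one_le M)
  have h5 : (discr F0).natAbs ^ m ∣ (discr M).natAbs := ⟨_, by rw [h3, mul_comm]⟩
  exact_mod_cast Nat.le_of_dvd (Nat.pos_of_ne_zero h4) h5

variable [IsAlgClosure K Ω]

/-- the subfield of a field in `GalS` -/
lemma main {H : Type} [Group H] [Finite H] (W U : Subgroup H) (hWU : W ≤ U)
    (hU : U.normalCore = ⊥) (M : IntermediateField K Ω) (hM : M ∈ GalS K Ω H W) :
    ∃ F : IntermediateField K Ω, FiniteDimensional K F ∧ Module.finrank K F = U.index ∧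
      F ≤ M ∧ M ≤ IntermediateField.normalClosure K F Ω ∧
      IntermediateField.normalClosure K F Ω = IntermediateField.normalClosure K M Ω := by
  classical
  obtain ⟨hMfd, e, he⟩ := hM
  have i1 : IsAlgClosed Ω := IsAlgClosure.isAlgClosed K
  have i2 : Normal K Ω := IsAlgClosure.normal K Ω
  have i3 : Algebra.IsAlgebraic K Ω := IsAlgClosure.isAlgebraic
  have i4 : Algebra.IsSeparable K Ω := inferInstance
  have i5 : IsGalois K Ω := ⟨⟩
  have hW : W.normalCore = ⊥ := by
    have : W.normalCore ≤ U.normalCore := Subgroup.normalCore_mono hWU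
    rwa [hU, le_bot_iff] at this
  let P : (Ω ≃ₐ[K] Ω) →* Equiv.Perm (H ⧸ W) := e.permCongrHom.toMonoidHom.comp (act M)
  have hP : ∀ (σ : Ω ≃ₐ[K] Ω) (φ : M →ₐ[K] Ω), e (act M σ φ) = P σ (e φ) := by
    intro σ φ
    change _ = e (act M σ (e.symm (e φ)))
    rw [Equiv.symm_apply_apply]
  let Q : H →* Equiv.Perm (H ⧸ W) := MulAction.toPermHom H (H ⧸ W)
  have hQ : ∀ (b : H) (x : H ⧸ W), Q b x = b • x := fun b x => rfl
  have hQi : Function.Injective Q := by
    rw [injective_iff_map_eq_one]
    intro b hb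
    have hb1 : b ∈ Q.ker := hb
    have : Q.ker = W.normalCore := (Subgroup.normalCore_eq_ker W).symm
    rw [this, hW] at hb1
    exact hb1
  have hex : ∀ σ, ∃ b : H, Q b = P σ := by
    intro σ
    obtain ⟨b, hb⟩ := (he (P σ)).2 ⟨σ, fun φ => hP σ φ⟩
    exact ⟨b, Equiv.ext fun x => (hb x).symm⟩
  choose h0 hh0 using hex
  let h : (Ω ≃ₐ[K] Ω) →* H :=
    { toFun := h0
      map_one' := hQi (by rw [hh0, map_one, map_one])
      map_mul' := fun σ τ => hQi (by rw [hh0, map_mul, map_mul, hh0, hh0]) }
  have hh : ∀ σ, Q (h σ) = P σ := hh0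
  have hs : Function.Surjective h := by
    intro b
    obtain ⟨σ, hσ⟩ := (he (Q b)).1 ⟨b, fun x => rfl⟩
    refine ⟨σ, hQi ?_⟩
    rw [hh]
    ext1 x
    obtain ⟨φ, rfl⟩ := e.surjective x
    rw [← hP, ← hσ]
    rfl
  have hact : ∀ σ φ, e (act M σ φ) = h σ • e φ := by
    intro σ φ
    rw [hP, ← hh]
    rfl
  obtain ⟨a, ha⟩ : ∃ a : H, (a : H ⧸ W) = e M.val := Quotient.exists_rep _
  have hker : h.ker = (IntermediateField.normalClosure K M Ω).fixingSubgroup := by
    rw [← ker_act]
    ext σ
    rw [MonoidHom.mem_ker, MonoidHom.mem_ker]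
    constructor
    · intro h1
      have h2 := hh σ
      rw [h1, map_one] at h2
      ext1 φ
      apply e.injective
      rw [hP, ← h2]
      rfl
    · intro h1
      apply hQi
      rw [hh, map_one]
      change e.permCongrHom (act M σ) = 1
      rw [h1, map_one]
  -- the subgroup
  let Ua : Subgroup H := U.map (MulAut.conj a).toMonoidHom
  have hUa : ∀ b, b ∈ Ua ↔ a⁻¹ * b * a ∈ U := by
    intro b
    constructor
    · rintro ⟨y, hy, rfl⟩
      have : a⁻¹ * (a * y * a⁻¹) * a = y := by group
      simpa [this] using hy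
    · intro hb
      exact ⟨_, hb, by simp [mul_assoc]⟩
  have hUai : Ua.index = U.index := Subgroup.index_map_equiv U (MulAut.conj a)
  let V : Subgroup (Ω ≃ₐ[K] Ω) := Ua.comap h
  have hV : ∀ σ, σ ∈ V ↔ a⁻¹ * h σ * a ∈ U := fun σ => hUa (h σ)
  have hMV : M.fixingSubgroup ≤ V := by
    intro σ hσ
    have h1 : act M σ M.val = M.val := by
      ext x
      rw [act_apply_apply]
      rw [IntermediateField.mem_fixingSubgroup_iff] at hσ
      exact hσ _ x.2
    have h2 := hact σ M.val
    rw [h1, ← ha] at h2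
    rw [hV]
    apply hWU
    have h3 : ((a : H) : H ⧸ W) = ((h σ * a : H) : H ⧸ W) := h2
    rw [QuotientGroup.eq] at h3
    rw [mul_assoc]
    exact h3
  have hopen : IsOpen (V : Set (Ω ≃ₐ[K] Ω)) :=
    Subgroup.isOpen_mono hMV M.fixingSubgroup_isOpen
  have hclosed : IsClosed (V : Set (Ω ≃ₐ[K] Ω)) := Subgroup.isClosed_of_isOpen _ hopen
  obtain ⟨F, hFdef⟩ : ∃ F, F = IntermediateField.fixedField V := ⟨_, rfl⟩
  have hFV : F.fixingSubgroup = V := by
    rw [hFdef]
    exact InfiniteGalois.fixingSubgroup_fixedField ⟨V, hclosed⟩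
  have hFM : F ≤ M := by
    rw [← InfiniteGalois.fixedField_fixingSubgroup M, hFdef]
    intro x hx
    rw [IntermediateField.mem_fixedField_iff] at hx ⊢
    exact fun σ hσ => hx σ (hMV hσ)
  have hFfd : FiniteDimensional K F := by
    rw [← InfiniteGalois.isOpen_iff_finite, hFV]
    exact hopen
  have hNFM : IntermediateField.normalClosure K M Ω ≤ IntermediateField.normalClosure K F Ω := by
    set NF := IntermediateField.normalClosure K F Ω with hNF
    have hFN : F ≤ NF := IntermediateField.le_normalClosure F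
    have h1 : NF.fixingSubgroup ≤ V := by
      rw [← hFV]
      exact IntermediateField.fixingSubgroup_le hFN
    have hn : NF.fixingSubgroup.Normal := by
      have : Normal K NF := inferInstance
      have hg : IsGalois K NF := ⟨⟩
      exact InfiniteGalois.normal_iff_isGalois NF |>.2 hg
    have h2 : NF.fixingSubgroup.map h ≤ U.normalCore := by
      have hn2 : (NF.fixingSubgroup.map h).Normal := Subgroup.Normal.map hn _ hs
      rw [Subgroup.normal_le_normalCore]
      intro b hb
      have h3 : a * b * a⁻¹ ∈ NF.fixingSubgroup.map h := hn2.conj_mem b hb a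
      obtain ⟨σ, hσ, hσ2⟩ := h3
      have h4 := (hV σ).1 (h1 hσ)
      rw [hσ2] at h4
      have h5 : a⁻¹ * (a * b * a⁻¹) * a = b := by group
      rwa [h5] at h4
    rw [hU, le_bot_iff, Subgroup.map_eq_bot_iff, hker] at h2
    rw [← InfiniteGalois.fixedField_fixingSubgroup (IntermediateField.normalClosure K M Ω),
      ← InfiniteGalois.fixedField_fixingSubgroup NF]
    intro x hx
    rw [IntermediateField.mem_fixedField_iff] at hx ⊢
    exact fun σ hσ => hx σ (h2 hσ)
  refine ⟨F, hFfd, ?_, hFM, (IntermediateField.le_normalClosure M).trans hNFM, ?_⟩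
  · rw [IntermediateField.finrank_eq_fixingSubgroup_index, hFV,
      Subgroup.index_comap_of_surjective _ hs, hUai]
  · exact le_antisymm (IntermediateField.normalClosure_mono F M hFM) hNFM

omit [NumberField K] [IsAlgClosure K Ω] in
/-- a finite Galois extension has at most `2 ^ n` intermediate fields -/
lemma card_below (N : IntermediateField K Ω) [FiniteDimensional K N] [IsGalois K N] (n : ℕ)
    (hn : Module.finrank K N = n) (s : Finset (IntermediateField K Ω)) (hs : ∀ M ∈ s, M ≤ N) :
    s.card ≤ 2 ^ n := by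
  classical
  have : Fintype (N ≃ₐ[K] N) := Fintype.ofFinite _
  have hc : Fintype.card (Set (N ≃ₐ[K] N)) = 2 ^ n := by
    rw [Fintype.card_set, ← Nat.card_eq_fintype_card, IsGalois.card_aut_eq_finrank, hn]
  rw [← hc, ← Fintype.card_coe]
  refine Fintype.card_le_of_injective
    (fun M : s => (((IntermediateField.restrict (hs M.1 M.2)).fixingSubgroup : Subgroup _) :
      Set (N ≃ₐ[K] N))) ?_
  intro M1 M2 h12
  have h1 : (IntermediateField.restrict (hs M1.1 M1.2)).fixingSubgroup =
      (IntermediateField.restrict (hs M2.1 M2.2)).fixingSubgroup := SetLike.coe_injective h12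
  have h2 : IntermediateField.restrict (hs M1.1 M1.2) = IntermediateField.restrict (hs M2.1 M2.2) := by
    rw [← IsGalois.fixedField_fixingSubgroup (IntermediateField.restrict (hs M1.1 M1.2)), h1,
      IsGalois.fixedField_fixingSubgroup]
  apply Subtype.ext
  rw [← IntermediateField.lift_restrict (hs M1.1 M1.2), h2, IntermediateField.lift_restrict]

end field

theorem t_FG : S_FG := by
  intro hDG h K Ω _ _ _ _ _ H _ _ W U hWU hU hcard
  classical
  have i2 : Normal K Ω := IsAlgClosure.normal K Ω
  have i3 : Algebra.IsAlgebraic K Ω := IsAlgClosure.isAlgebraic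
  have i4 : Algebra.IsSeparable K Ω := inferInstance
  have hW : W.normalCore = ⊥ := by
    have : W.normalCore ≤ U.normalCore := Subgroup.normalCore_mono hWU
    rwa [hU, le_bot_iff] at this
  obtain ⟨hDG1, -⟩ := hDG K Ω H W hW
  obtain ⟨C, hC⟩ := h K Ω U.index
  have key : ∀ M : GalS K Ω H W, ∃ F : IntermediateField K Ω, FiniteDimensional K F ∧
      Module.finrank K F = U.index ∧ F ≤ M.1 ∧ M.1 ≤ IntermediateField.normalClosure K F Ω ∧
      IntermediateField.normalClosure K F Ω = IntermediateField.normalClosure K M.1 Ω :=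
    fun M => main W U hWU hU M.1 M.2
  choose F hfd hfr hFM hMN hNN using key
  have hnF : ∀ M, NumberField (F M) := fun M => by have := hfd M; exact nf _
  have hMfd : ∀ M : GalS K Ω H W, FiniteDimensional K M.1 := fun M => M.2.1
  have hnM : ∀ M : GalS K Ω H W, NumberField M.1 := fun M => by
    have := hMfd M
    exact nf _
  set g : GalS K Ω H W → ℕ := fun M => (discr (F M)).natAbs with hg
  have hg1 : ∀ M, 1 ≤ g M := fun M => one_le (F M)
  have hu : 1 ≤ U.index := Nat.one_le_iff_ne_zero.2 Subgroup.index_ne_zero_of_finite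
  obtain ⟨m, hm⟩ : ∃ m, W.index = U.index * m := Subgroup.index_dvd_of_le hWU
  have hcU : 8 * (U.index + 1) ≤ m := by
    rw [hm] at hcard
    have : U.index * (8 * (U.index + 1)) ≤ U.index * m := by
      calc U.index * (8 * (U.index + 1)) = 8 * U.index * (U.index + 1) := by ring
        _ ≤ _ := hcard
    exact Nat.le_of_mul_le_mul_left this hu
  have hdsc : ∀ M : GalS K Ω H W, dsc (F M) ^ m ≤ dsc M.1 := by
    intro M
    have := hMfd M
    refine dsc_tower (F M) M.1 (hFM M) m ?_
    rw [hfr M, (hDG1 M.1 M.2).1, hm]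
  have hbound : ∀ M : GalS K Ω H W, (dsc M.1) ^ (-(1 / 4) : ℝ) ≤
      (1 : ℝ) / (g M : ℝ) ^ (2 * U.index + 2) := by
    intro M
    have h1 : (1 : ℝ) ≤ g M := by exact_mod_cast hg1 M
    have h2 : (g M : ℝ) ^ (8 * (U.index + 1)) ≤ dsc M.1 := by
      refine le_trans ?_ (hdsc M)
      rw [dsc_eq (F M)]
      exact pow_le_pow_right₀ h1 hcU
    have h3 : ((g M : ℝ) ^ (8 * (U.index + 1))) ^ (-(1 / 4) : ℝ) =
        (1 : ℝ) / (g M : ℝ) ^ (2 * U.index + 2) := by
      have h4 : (1 : ℝ) / (g M : ℝ) ^ (2 * U.index + 2) =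
          (g M : ℝ) ^ (-((2 * U.index + 2 : ℕ) : ℝ)) := by
        rw [Real.rpow_neg (by positivity), Real.rpow_natCast, one_div]
      rw [h4, ← Real.rpow_natCast, ← Real.rpow_mul (by positivity)]
      congr 1
      push_cast
      ring
    rw [← h3]
    exact Real.rpow_le_rpow_of_nonpos (by positivity) h2 (by norm_num)
  set B : ℕ := 2 ^ Nat.card H with hB
  have hC0 : ∀ k : ℕ, 1 ≤ k → ∀ s : Finset (GalS K Ω H W), (∀ M ∈ s, g M = k) →
      (s.card : ℝ) ≤ B * |C| * (k : ℝ) ^ (2 * U.index) := by
    intro k hk s hs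
    obtain ⟨hfin, hle⟩ := hC k (by exact_mod_cast hk)
    have h1 : (s.image F).card ≤ Set.ncard {F : IntermediateField K Ω |
        FiniteDimensional K F ∧ Module.finrank K F = U.index ∧ dsc F ≤ (k : ℝ)} := by
      rw [← Set.ncard_coe_finset]
      refine Set.ncard_le_ncard ?_ hfin
      intro x hx
      rw [Finset.mem_coe, Finset.mem_image] at hx
      obtain ⟨M, hM, rfl⟩ := hx
      refine ⟨hfd M, hfr M, ?_⟩
      rw [dsc_eq (F M), ← hs M hM]
    have h2 : s.card ≤ B * (s.image F).card := by
      refine Finset.card_le_mul_card_image s B ?_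
      intro x hx
      obtain ⟨M0, hM0, rfl⟩ := Finset.mem_image.1 hx
      have hfd0 := hfd M0
      have hgal : IsGalois K (IntermediateField.normalClosure K (F M0) Ω) := ⟨⟩
      have hfr0 : Module.finrank K (IntermediateField.normalClosure K (F M0) Ω) = Nat.card H := by
        rw [hNN M0, (hDG1 M0.1 M0.2).2.1]
      have h3 := card_below (IntermediateField.normalClosure K (F M0) Ω) (Nat.card H) hfr0
        ((s.filter fun M => F M = F M0).map ⟨Subtype.val, Subtype.val_injective⟩) (by
          intro M hM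
          rw [Finset.mem_map] at hM
          obtain ⟨M', hM', rfl⟩ := hM
          have h4 := (Finset.mem_filter.1 hM').2
          have h5 := hMN M'
          rw [h4] at h5
          exact h5)
      rwa [Finset.card_map] at h3
    have h3 : (s.card : ℝ) ≤ B * ((s.image F).card : ℝ) := by exact_mod_cast h2
    have h4 : ((s.image F).card : ℝ) ≤ |C| * (k : ℝ) ^ (2 * U.index) := by
      have h5 : ((s.image F).card : ℝ) ≤ C * (k : ℝ) ^ (2 * U.index) :=
        le_trans (by exact_mod_cast h1) hle
      exact h5.trans (mul_le_mul_of_nonneg_right (le_abs_self C) (by positivity))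
    calc (s.card : ℝ) ≤ B * ((s.image F).card : ℝ) := h3
      _ ≤ B * (|C| * (k : ℝ) ^ (2 * U.index)) := mul_le_mul_of_nonneg_left h4 (by positivity)
      _ = _ := by ring
  have hC' : 0 ≤ (B : ℝ) * |C| := by positivity
  have hsum2 : Summable (fun m : ℕ => (1 : ℝ) / (m : ℝ) ^ 2) :=
    Real.summable_one_div_nat_pow.2 (by norm_num)
  refine Summable.of_nonneg_of_le (fun M => ?_) hbound ?_
  · exact Real.rpow_nonneg (by rw [dsc_eq]; positivity) _
  refine summable_of_sum_le (c := (B * |C|) * ∑' m : ℕ, (1 : ℝ) / (m : ℝ) ^ 2)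
    (fun M => by positivity) ?_
  intro s
  calc ∑ M ∈ s, (1 : ℝ) / (g M : ℝ) ^ (2 * U.index + 2)
      = ∑ m ∈ s.image g, ∑ M ∈ s with g M = m, (1 : ℝ) / (g M : ℝ) ^ (2 * U.index + 2) :=
        (Finset.sum_fiberwise_of_maps_to (fun M hM => Finset.mem_image_of_mem g hM) _).symm
    _ ≤ ∑ m ∈ s.image g, (B * |C|) * ((1 : ℝ) / (m : ℝ) ^ 2) := by
        refine Finset.sum_le_sum fun m hm => ?_
        obtain ⟨M0, hM0, hM0'⟩ := Finset.mem_image.1 hm
        have hm1 : 1 ≤ m := hM0' ▸ hg1 M0
        have hmpos : (0 : ℝ) < m := by exact_mod_cast hm1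
        have e1 : ∑ M ∈ s with g M = m, (1 : ℝ) / (g M : ℝ) ^ (2 * U.index + 2) =
            ((s.filter (fun M => g M = m)).card : ℝ) * (1 / (m : ℝ) ^ (2 * U.index + 2)) := by
          rw [Finset.sum_congr rfl (g := fun _ => (1 : ℝ) / (m : ℝ) ^ (2 * U.index + 2)),
            Finset.sum_const, nsmul_eq_mul]
          intro M hM
          rw [(Finset.mem_filter.1 hM).2]
        rw [e1]
        calc ((s.filter (fun M => g M = m)).card : ℝ) * (1 / (m : ℝ) ^ (2 * U.index + 2))
            ≤ (B * |C| * (m : ℝ) ^ (2 * U.index)) * (1 / (m : ℝ) ^ (2 * U.index + 2)) := by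
              refine mul_le_mul_of_nonneg_right ?_ (by positivity)
              exact hC0 m hm1 _ fun M hM => (Finset.mem_filter.1 hM).2
          _ = (B * |C|) * ((1 : ℝ) / (m : ℝ) ^ 2) := by
              rw [pow_add]
              field_simp
    _ = (B * |C|) * ∑ m ∈ s.image g, (1 : ℝ) / (m : ℝ) ^ 2 := by rw [Finset.mul_sum]
    _ ≤ (B * |C|) * ∑' m : ℕ, (1 : ℝ) / (m : ℝ) ^ 2 := by
        refine mul_le_mul_of_nonneg_left ?_ hC'
        exact hsum2.sum_le_tsum _ (fun m _ => by positivity)

end Pool.Agent.Q259.CA_FG
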