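import Mathlib
import Pool.Agent.Q201.AR.Stm2

set_option autoImplicit false

/-!
Project AR, job ARCL: closure properties of the arithmetical predicates.
-/

open FirstOrder FirstOrder.Language Pool.Agent.Helper227.EN

namespace Q259.AR_ARCL

open Q201.AR Pool.Agent.Helper578.JD Pool.Agent.Helper578.JD.Oracle

theorem Oj_succ (n : ℕ) : Oj (n + 1) = jump (Oj n) := Function.iterate_succ_apply' _ _ _

theorem Oj_red {n m : ℕ} (h : n ≤ m) : Red (Oj n) (Oj m) := by
  induction h with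
  | refl => exact Red.refl _
  | step h ih => rw [Oj_succ]; exact ih.trans (Red_jump _)

theorem Dec.mono {α : Type} [Primcodable α] {P : α → Prop} {n m : ℕ} (h : n ≤ m)
    (hP : Dec (Oj n) P) : Dec (Oj m) P := ⟨reMono hP.1 (Oj_red h), reMono hP.2 (Oj_red h)⟩

theorem t_ARCL : S_ARCL := by
  refine ⟨?_, ?_, ?_, ?_, ?_⟩
  · rintro α β _ _ P f hf ⟨n, h1, h2⟩
    exact ⟨n, h1.comp hf, h2.comp hf⟩
  · intro α _ P hP
    exact ⟨0, REIn.of_re hP.to_re, REIn.of_re hP.not.to_re⟩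
  · rintro α _ P ⟨n, h1, h2⟩
    exact ⟨n, h2, h1.of_eq fun a => not_not.symm⟩
  · rintro α _ P Q ⟨n, hP⟩ ⟨m, hQ⟩
    have hP' := Dec.mono (le_max_left n m) hP
    have hQ' := Dec.mono (le_max_right n m) hQ
    exact ⟨max n m, hP'.1.and hQ'.1, (hP'.2.or hQ'.2).of_eq fun a => (not_and_or).symm⟩
  · rintro α β _ _ P ⟨n, h1, -⟩
    have h3 : REIn (Oj n) fun a => ∃ b, P (a, b) := REIn.ex (S := fun a b => P (a, b)) h1
    obtain ⟨f, hf, h⟩ := REIn_iff_jump.1 h3
    refine ⟨n + 1, ?_, ?_⟩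
    · rw [Oj_succ]; exact (REIn.mem hf).of_eq fun a => (h a).symm
    · rw [Oj_succ]; exact (REIn.not_mem hf).of_eq fun a => (not_congr (h a)).symm

end Q259.AR_ARCL
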