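import Mathlib
import Pool.Agent.Q82.BB.Stm

/-!
# Project BB, job JS: derivatives and smoothness of `U`
-/

set_option autoImplicit false

open MeasureTheory Filter Topology Set

namespace Pool.Agent.Q82.BB

private theorem js_pow (c : ℝ) (hc : 0 < c) (n : ℕ) (ξ : ℝ) :
    |ξ| ^ n * Real.exp (-(c * |ξ|)) ≤ n.factorial / c ^ n := by
  have h := Real.pow_div_factorial_le_exp (c * |ξ|) (by positivity) n
  have hf : (0 : ℝ) < n.factorial := by exact_mod_cast n.factorial_pos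
  rw [div_le_iff₀ hf, mul_pow] at h
  rw [Real.exp_neg, ← div_eq_mul_inv, div_le_div_iff₀ (Real.exp_pos _) (by positivity)]
  nlinarith [h]

/-- The dominating function. -/
private theorem js_dom {T : ℝ} {G : ℝ → ℝ → ℂ} (hG : Good T G) (i : ℕ) (a b : ℝ) (ha : 0 < a)
    (hb : b < T) : ∃ K : ℝ, ∀ ξ : ℝ, ∀ τ ∈ Icc a b, |ξ| ^ i * ‖G ξ τ‖ ≤ K * (1 + ξ ^ 2)⁻¹ := by
  obtain ⟨c, C, hc, h⟩ := hG.2 a b ha hb
  refine ⟨|C| * (i.factorial / c ^ i + (i + 2).factorial / c ^ (i + 2)), fun ξ τ hτ => ?_⟩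
  rw [← div_eq_mul_inv, le_div_iff₀ (by positivity)]
  have h1 := js_pow c hc i ξ
  have h2 := js_pow c hc (i + 2) ξ
  have h3 : ‖G ξ τ‖ ≤ |C| * Real.exp (-(c * |ξ|)) :=
    (h ξ τ hτ).trans (mul_le_mul_of_nonneg_right (le_abs_self C) (Real.exp_pos _).le)
  have h4 : |ξ| ^ i * ‖G ξ τ‖ * (1 + ξ ^ 2) ≤
      |ξ| ^ i * (|C| * Real.exp (-(c * |ξ|))) * (1 + ξ ^ 2) := by gcongr
  refine h4.trans ?_
  have h5 : |ξ| ^ i * (|C| * Real.exp (-(c * |ξ|))) * (1 + ξ ^ 2) =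
      |C| * (|ξ| ^ i * Real.exp (-(c * |ξ|)) + |ξ| ^ (i + 2) * Real.exp (-(c * |ξ|))) := by
    rw [pow_add |ξ| i 2, sq_abs]; ring
  rw [h5]
  gcongr

private theorem js_cont {T : ℝ} {G : ℝ → ℝ → ℂ} (hG : Good T G) {τ : ℝ} (hτ : τ ∈ Ioo 0 T) :
    Continuous (fun ξ => G ξ τ) := by
  have h1 : ContinuousOn (fun ξ : ℝ => ((ξ, τ) : ℝ × ℝ)) univ := by fun_prop
  have h2 : MapsTo (fun ξ : ℝ => ((ξ, τ) : ℝ × ℝ)) univ (univ ×ˢ Ioo 0 T) :=
    fun ξ _ => ⟨mem_univ _, hτ⟩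
  exact continuousOn_univ.1 (hG.1.comp h1 h2)

/-- The integrand. -/
private noncomputable def js_F (G : ℝ → ℝ → ℂ) (i : ℕ) (q : ℝ × ℝ) (ξ : ℝ) : ℂ :=
  (Complex.I * ξ) ^ i * G ξ q.2 * Complex.exp (Complex.I * q.1 * ξ)

private theorem js_norm (G : ℝ → ℝ → ℂ) (i : ℕ) (q : ℝ × ℝ) (ξ : ℝ) :
    ‖js_F G i q ξ‖ = |ξ| ^ i * ‖G ξ q.2‖ := by
  have h : ‖Complex.exp (Complex.I * q.1 * ξ)‖ = 1 := by
    have : Complex.I * (q.1 : ℂ) * (ξ : ℂ) = ((q.1 * ξ : ℝ) : ℂ) * Complex.I := by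
      push_cast; ring
    rw [this, Complex.norm_exp_ofReal_mul_I]
  rw [js_F, norm_mul, norm_mul, h, norm_pow, norm_mul, Complex.norm_I, Complex.norm_real]
  simp

private theorem js_meas {T : ℝ} {G : ℝ → ℝ → ℂ} (hG : Good T G) (i : ℕ) {q : ℝ × ℝ}
    (hτ : q.2 ∈ Ioo 0 T) : Continuous (js_F G i q) := by
  have := js_cont hG hτ
  unfold js_F
  fun_prop

private theorem js_integrable {T : ℝ} {G : ℝ → ℝ → ℂ} (hG : Good T G) (i : ℕ) {q : ℝ × ℝ}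
    (hτ : q.2 ∈ Ioo 0 T) : Integrable (js_F G i q) := by
  obtain ⟨K, hK⟩ := js_dom hG i q.2 q.2 hτ.1 hτ.2
  refine Integrable.mono' (integrable_inv_one_add_sq.const_mul K)
    (js_meas hG i hτ).aestronglyMeasurable (Eventually.of_forall fun ξ => ?_)
  rw [js_norm]
  exact hK ξ q.2 ⟨le_rfl, le_rfl⟩

/-- The derivative of the integrand. -/
private noncomputable def js_D (G G' : ℝ → ℝ → ℂ) (i : ℕ) (q : ℝ × ℝ) (ξ : ℝ) : ℝ × ℝ →L[ℝ] ℂ :=
  (ContinuousLinearMap.fst ℝ ℝ ℝ).smulRight (js_F G (i + 1) q ξ) +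
    (ContinuousLinearMap.snd ℝ ℝ ℝ).smulRight (js_F G' i q ξ)

private theorem js_Dnorm (G G' : ℝ → ℝ → ℂ) (i : ℕ) (q : ℝ × ℝ) (ξ : ℝ) :
    ‖js_D G G' i q ξ‖ ≤ ‖js_F G (i + 1) q ξ‖ + ‖js_F G' i q ξ‖ := by
  refine (norm_add_le _ _).trans (add_le_add ?_ ?_)
  · rw [ContinuousLinearMap.norm_smulRight_apply]
    exact (mul_le_mul_of_nonneg_right (ContinuousLinearMap.norm_fst_le ℝ ℝ ℝ)
      (norm_nonneg _)).trans_eq (one_mul _)
  · rw [ContinuousLinearMap.norm_smulRight_apply]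
    exact (mul_le_mul_of_nonneg_right (ContinuousLinearMap.norm_snd_le ℝ ℝ ℝ)
      (norm_nonneg _)).trans_eq (one_mul _)

private theorem js_hasFDerivAt_int {G G' : ℝ → ℝ → ℂ} (i : ℕ) {q : ℝ × ℝ} {ξ : ℝ}
    (h : HasDerivAt (fun τ => G ξ τ) (G' ξ q.2) q.2) :
    HasFDerivAt (fun q => js_F G i q ξ) (js_D G G' i q ξ) q := by
  have h1 : HasFDerivAt (fun q : ℝ × ℝ => G ξ q.2)
      ((ContinuousLinearMap.snd ℝ ℝ ℝ).smulRight (G' ξ q.2)) q := by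
    have := h.hasFDerivAt.comp q (hasFDerivAt_snd (𝕜 := ℝ) (E := ℝ) (F := ℝ) (p := q))
    refine this.congr_fderiv ?_
    ext <;> simp
  have h2 : HasDerivAt (fun x : ℝ => Complex.exp (Complex.I * x * ξ))
      (Complex.exp (Complex.I * q.1 * ξ) * (Complex.I * ξ)) q.1 := by
    have h3 : HasDerivAt (fun x : ℝ => Complex.I * (x : ℂ) * ξ) (Complex.I * ξ) q.1 := by
      have := ((Complex.ofRealCLM.hasDerivAt (x := q.1)).const_mul Complex.I).mul_const (ξ : ℂ)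
      simpa using this
    exact h3.cexp
  have h4 : HasFDerivAt (fun q : ℝ × ℝ => Complex.exp (Complex.I * q.1 * ξ))
      ((ContinuousLinearMap.fst ℝ ℝ ℝ).smulRight
        (Complex.exp (Complex.I * q.1 * ξ) * (Complex.I * ξ))) q := by
    have := h2.hasFDerivAt.comp q (hasFDerivAt_fst (𝕜 := ℝ) (E := ℝ) (F := ℝ) (p := q))
    refine this.congr_fderiv ?_
    ext <;> simp
  have h5 := (h1.const_mul ((Complex.I * ξ) ^ i)).mul h4
  refine h5.congr_fderiv ?_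
  ext
  · simp [js_D, js_F]; ring
  · simp [js_D, js_F]; ring

private theorem js_main {T : ℝ} {G G' : ℝ → ℝ → ℂ} (hG : Good T G) (hG' : Good T G')
    (h : ∀ ξ : ℝ, ∀ τ ∈ Ioo 0 T, HasDerivAt (fun τ => G ξ τ) (G' ξ τ) τ) (i : ℕ) {q : ℝ × ℝ}
    (hq : q.2 ∈ Ioo 0 T) :
    HasFDerivAt (fun q => ∫ ξ, js_F G i q ξ) (∫ ξ, js_D G G' i q ξ) q ∧
      Integrable (js_D G G' i q) := by
  have hDint : Integrable (js_D G G' i q) := by
    have e1 : Continuous (fun ξ => (ContinuousLinearMap.fst ℝ ℝ ℝ).smulRight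
        (js_F G (i + 1) q ξ)) :=
      (ContinuousLinearMap.smulRightL ℝ (ℝ × ℝ) ℂ (ContinuousLinearMap.fst ℝ ℝ ℝ)).continuous.comp
        (js_meas hG (i + 1) hq)
    have e2 : Continuous (fun ξ => (ContinuousLinearMap.snd ℝ ℝ ℝ).smulRight
        (js_F G' i q ξ)) :=
      (ContinuousLinearMap.smulRightL ℝ (ℝ × ℝ) ℂ (ContinuousLinearMap.snd ℝ ℝ ℝ)).continuous.comp
        (js_meas hG' i hq)
    have e3 : Continuous (js_D G G' i q) := e1.add e2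
    exact Integrable.mono' ((js_integrable hG (i + 1) hq).norm.add (js_integrable hG' i hq).norm)
      e3.aestronglyMeasurable (Eventually.of_forall fun ξ => js_Dnorm G G' i q ξ)
  refine ⟨?_, hDint⟩
  obtain ⟨a, ha0, haq⟩ := exists_between hq.1
  obtain ⟨b, hbq, hbT⟩ := exists_between hq.2
  obtain ⟨K1, hK1⟩ := js_dom hG (i + 1) a b ha0 hbT
  obtain ⟨K2, hK2⟩ := js_dom hG' i a b ha0 hbT
  have hs : (univ ×ˢ Ioo a b : Set (ℝ × ℝ)) ∈ 𝓝 q :=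
    (isOpen_univ.prod isOpen_Ioo).mem_nhds ⟨mem_univ _, haq, hbq⟩
  have hsub : ∀ p ∈ (univ ×ˢ Ioo a b : Set (ℝ × ℝ)), p.2 ∈ Ioo 0 T := fun p hp =>
    ⟨ha0.trans hp.2.1, hp.2.2.trans hbT⟩
  refine hasFDerivAt_integral_of_dominated_of_fderiv_le
    (bound := fun ξ => K1 * (1 + ξ ^ 2)⁻¹ + K2 * (1 + ξ ^ 2)⁻¹) hs ?_
    (js_integrable hG i hq) hDint.1 ?_ ?_ ?_
  · filter_upwards [hs] with p hp
    exact (js_meas hG i (hsub p hp)).aestronglyMeasurable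
  · refine Eventually.of_forall fun ξ p hp => ?_
    have hI : p.2 ∈ Icc a b := ⟨hp.2.1.le, hp.2.2.le⟩
    refine (js_Dnorm G G' i p ξ).trans ?_
    rw [js_norm, js_norm]
    exact add_le_add (hK1 ξ p.2 hI) (hK2 ξ p.2 hI)
  · exact (integrable_inv_one_add_sq.const_mul K1).add (integrable_inv_one_add_sq.const_mul K2)
  · exact Eventually.of_forall fun ξ p hp => js_hasFDerivAt_int i (h ξ p.2 (hsub p hp))

private theorem js_UU (W : ℕ → ℝ → ℝ → ℂ) (i j : ℕ) (q : ℝ × ℝ) :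
    UU W i j q.1 q.2 = (∫ ξ, js_F (W j) i q ξ).re := rfl

/-- The Frechet derivative of `U`. -/
private noncomputable def js_L (W : ℕ → ℝ → ℝ → ℂ) (i j : ℕ) (q : ℝ × ℝ) : ℝ × ℝ →L[ℝ] ℝ :=
  UU W (i + 1) j q.1 q.2 • ContinuousLinearMap.fst ℝ ℝ ℝ +
    UU W i (j + 1) q.1 q.2 • ContinuousLinearMap.snd ℝ ℝ ℝ

private theorem js_fd {T : ℝ} {W : ℕ → ℝ → ℝ → ℂ} (hG : ∀ j, Good T (W j))
    (h : ∀ j : ℕ, ∀ ξ : ℝ, ∀ τ ∈ Ioo 0 T, HasDerivAt (fun τ => W j ξ τ) (W (j + 1) ξ τ) τ)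
    (i j : ℕ) {q : ℝ × ℝ} (hq : q.2 ∈ Ioo 0 T) :
    HasFDerivAt (fun q : ℝ × ℝ => UU W i j q.1 q.2) (js_L W i j q) q := by
  obtain ⟨h1, h2⟩ := js_main (hG j) (hG (j + 1)) (h j) i hq
  have h3 := Complex.reCLM.hasFDerivAt.comp q h1
  refine h3.congr_fderiv ?_
  ext
  · simp only [ContinuousLinearMap.comp_apply, ContinuousLinearMap.inl_apply]
    rw [ContinuousLinearMap.integral_apply h2]
    simp [js_L, js_D, js_UU]
  · simp only [ContinuousLinearMap.comp_apply, ContinuousLinearMap.inr_apply]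
    rw [ContinuousLinearMap.integral_apply h2]
    simp [js_L, js_D, js_UU]

theorem js : S_JS := by
  intro T W hT hG h
  refine ⟨fun i j x τ hτ => ?_, fun i j x τ hτ => ?_, ?_⟩
  · have h1 := js_fd hG h i j (q := (x, τ)) hτ
    have h2 : HasDerivAt (fun x : ℝ => ((x, τ) : ℝ × ℝ)) (1, 0) x :=
      (hasDerivAt_id x).prodMk (hasDerivAt_const x τ)
    have h3 := h1.comp_hasDerivAt x h2
    simpa [js_L, Function.comp_def] using h3
  · have h1 := js_fd hG h i j (q := (x, τ)) hτ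
    have h2 : HasDerivAt (fun τ : ℝ => ((x, τ) : ℝ × ℝ)) (0, 1) τ :=
      (hasDerivAt_const τ x).prodMk (hasDerivAt_id τ)
    have h3 := h1.comp_hasDerivAt τ h2
    simpa [js_L, Function.comp_def] using h3
  · have hO : IsOpen (univ ×ˢ Ioo 0 T : Set (ℝ × ℝ)) := isOpen_univ.prod isOpen_Ioo
    intro i j n
    induction n generalizing i j with
    | zero =>
      refine contDiffOn_zero.2 fun q hq => ?_
      exact (js_fd hG h i j hq.2).continuousAt.continuousWithinAt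
    | succ n ih =>
      have e : ((n + 1 : ℕ) : WithTop ℕ∞) = (n : WithTop ℕ∞) + 1 := by push_cast; rfl
      rw [e, contDiffOn_succ_iff_fderiv_of_isOpen hO]
      refine ⟨fun q hq => (js_fd hG h i j hq.2).differentiableAt.differentiableWithinAt, ?_, ?_⟩
      · intro hn
        exact absurd hn (by simp)
      · have h1 : ContDiffOn ℝ n (js_L W i j) (univ ×ˢ Ioo 0 T) :=
          ((ih (i + 1) j).smul contDiffOn_const).add ((ih i (j + 1)).smul contDiffOn_const)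
        exact h1.congr fun q hq => (js_fd hG h i j hq.2).fderiv

end Pool.Agent.Q82.BB
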