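import Pool.Agent.Q61.MH.Stm

set_option autoImplicit false

open Real

namespace Pool.Agent.Q61.MH

private lemma S_succ' (k : ℕ) (r : ℝ) : S (k + 1) r = S k r + ((k : ℝ) + 1) ^ r := by
  unfold S
  rw [Finset.sum_range_succ]

theorem rec1 : S_rec := by
  intro k hk r
  have hk1 : (1 : ℝ) ≤ (k : ℝ) := by exact_mod_cast hk
  have e1 : mm k + 3 = ((k : ℝ) + 1) * (2 * (k : ℝ) + 1) := by unfold mm; ring
  have e2 : mm k = ((k : ℝ) + 2) * (2 * (k : ℝ) - 1) := by unfold mm; ring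
  have e3 : nn k + 1 = ((k : ℝ) + 1) * (2 * (k : ℝ) + 3) := by unfold nn; ring
  have e4 : nn k = ((k : ℝ) + 2) * (2 * (k : ℝ) + 1) := by unfold nn; ring
  have q : Qk k r = (((k : ℝ) + 1) ^ r * (2 * (k : ℝ) + 1) ^ r -
      ((k : ℝ) + 2) ^ r * (2 * (k : ℝ) - 1) ^ r) -
      (((k : ℝ) + 1) ^ r * (2 * (k : ℝ) + 3) ^ r - ((k : ℝ) + 2) ^ r * (2 * (k : ℝ) + 1) ^ r) := by
    unfold Qk
    rw [e1, e3, e2, e4, Real.mul_rpow (by linarith) (by linarith),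
      Real.mul_rpow (by linarith) (by linarith), Real.mul_rpow (by linarith) (by linarith),
      Real.mul_rpow (by linarith) (by linarith)]
  have c1 : (2 * ((k + 1 : ℕ) : ℝ) + 1) = 2 * (k : ℝ) + 3 := by push_cast; ring
  have c2 : (2 * ((k + 1 : ℕ) : ℝ) - 1) = 2 * (k : ℝ) + 1 := by push_cast; ring
  have c3 : (((k + 1 : ℕ) : ℝ) + 1) = (k : ℝ) + 2 := by push_cast; ring
  have s1 := S_succ' k r
  have s2 := S_succ' (k + 1) r
  rw [c3] at s2
  rw [q]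
  unfold Dd P
  rw [c1, c2, s2, s1]
  ring

end Pool.Agent.Q61.MH
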