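import Pool.Agent.Q49.MR.Stm

set_option autoImplicit false

open Module

namespace Q259.MR_COD

open Q49.MR

section

variable {K L : Type} [Field K] [Field L] [Algebra K L] (σ : L ≃ₐ[K] L)

/-- the word with the coefficients `a`, `b` -/
noncomputable def wd (δ : L) : L × L →ₗ[K] (L →ₗ[K] L) where
  toFun p :=
    { toFun := fun x => p.1 * x + p.2 * (σ x + δ * σ (σ (σ (σ (σ x)))))
      map_add' := by
        intro x y
        simp only [map_add]
        ring
      map_smul' := by
        intro c x
        simp only [RingHom.id_apply, Algebra.smul_def, map_mul, AlgEquiv.commutes]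
        ring }
  map_add' := by
    intro p p'
    ext x
    simp only [LinearMap.coe_mk, AddHom.coe_mk, LinearMap.add_apply, Prod.fst_add, Prod.snd_add]
    ring
  map_smul' := by
    intro c p
    ext x
    show (c • p.1) * x + (c • p.2) * (σ x + δ * σ (σ (σ (σ (σ x))))) =
      c • (p.1 * x + p.2 * (σ x + δ * σ (σ (σ (σ (σ x))))))
    simp only [Algebra.smul_def]
    ring

theorem wd_apply (δ : L) (p : L × L) (x : L) :
    wd σ δ p x = p.1 * x + p.2 * (σ x + δ * σ (σ (σ (σ (σ x))))) := rfl

end

theorem cod (h1 : S_TAU) (h2 : S_IND) : S_COD := by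
  intro K L _ _ _ _ _ σ hc s hs δ
  have hq : ∀ x : L, x ^ (Nat.card K ^ (4 + s)) = σ (σ (σ (σ (σ x)))) := by
    intro x
    rw [h1 K L σ hc (σ x), hs x, ← pow_mul, ← pow_add, Nat.add_comm s 4]
  have hcode : ∀ f : L →ₗ[K] L, f ∈ codeC K L s δ ↔ ∃ p : L × L, wd σ δ p = f := by
    intro f
    constructor
    · rintro ⟨a, b, h⟩
      refine ⟨(a, b), ?_⟩
      ext x
      rw [wd_apply, h x, hq x, hs x]
    · rintro ⟨p, rfl⟩
      refine ⟨p.1, p.2, fun x => ?_⟩
      rw [wd_apply, hq x, hs x]
  have h20 : (2 : L) ≠ 0 := by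
    intro h
    apply hc.two
    apply FaithfulSMul.algebraMap_injective K L
    rw [map_zero, ← h, map_ofNat]
  have hinj : Function.Injective (wd σ δ) := by
    rw [injective_iff_map_eq_zero]
    rintro ⟨a, b⟩ h
    have hx : ∀ x : L, a * x + b * (σ x + δ * σ (σ (σ (σ (σ x))))) = 0 := by
      intro x
      have := congrArg (fun f : L →ₗ[K] L => f x) h
      simpa only [wd_apply, LinearMap.zero_apply] using this
    have hW : ∀ x ∈ W σ, a * x + (b * (1 - δ)) * σ x + 0 * σ (σ x) + 0 * σ (σ (σ x)) = 0 := by
      intro x hxW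
      have h4 : σ (σ (σ (σ x))) = -x := hxW
      have h5 : σ (σ (σ (σ (σ x)))) = -σ x := by
        have := congrArg σ h4
        rwa [map_neg] at this
      have := hx x
      rw [h5] at this
      linear_combination this
    obtain ⟨ha, hb, -, -⟩ := h2 K L σ hc a (b * (1 - δ)) 0 0 hW
    rcases mul_eq_zero.1 hb with hb | hb
    · rw [ha, hb]; rfl
    · have hδ : δ = 1 := (sub_eq_zero.1 hb).symm
      have := hx 1
      simp only [map_one, ha, hδ, zero_add, mul_one] at this
      rcases mul_eq_zero.1 this with h | h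
      · rw [ha, h]; rfl
      · exfalso
        apply h20
        linear_combination h
  have hfd : FiniteDimensional K L := FiniteDimensional.of_finrank_pos (by rw [hc.rank]; norm_num)
  have hdim : finrank K (codeC K L s δ) = 16 := by
    have heq : codeC K L s δ = LinearMap.range (wd σ δ) := by
      ext f
      rw [hcode f]
      exact Iff.rfl
    rw [heq, LinearMap.finrank_range_of_inj hinj, Module.finrank_prod, hc.rank]
  have hrn : ∀ f : L →ₗ[K] L, finrank K (LinearMap.range f) + finrank K (LinearMap.ker f) = 8 := by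
    intro f
    rw [LinearMap.finrank_range_add_finrank_ker, hc.rank]
  have hker2 : ∀ (f : L →ₗ[K] L) (x y : L), f x = 0 → f y = 0 → LinearIndependent K ![x, y] →
      2 ≤ finrank K (LinearMap.ker f) := by
    intro f x y hx hy hli
    have hli2 : LinearIndependent K (![⟨x, hx⟩, ⟨y, hy⟩] : Fin 2 → LinearMap.ker f) := by
      apply LinearIndependent.of_comp (LinearMap.ker f).subtype
      convert hli using 1
      ext i
      fin_cases i <;> rfl
    have := hli2.fintype_card_le_finrank
    simpa using this
  constructor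
  · rintro ⟨d, ⟨f0, hf0, hf0n, hf0d⟩, hmin, hfin⟩ a b hab x y hx hy hli
    rw [hdim, hc.rank] at hfin
    have hd : d = 7 := by omega
    have hne : wd σ δ (a, b) ≠ 0 := by
      intro h
      have : ((a, b) : L × L) = 0 := hinj (by rw [h, map_zero])
      rw [Prod.mk_eq_zero] at this
      rcases hab with h' | h'
      · exact h' this.1
      · exact h' this.2
    have h7 := hmin _ ((hcode _).2 ⟨(a, b), rfl⟩) hne
    have h8 := hrn (wd σ δ (a, b))
    have h9 := hker2 (wd σ δ (a, b)) x y (by rw [wd_apply]; exact hx) (by rw [wd_apply]; exact hy)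
      hli
    omega
  · intro H
    have hrank : ∀ f ∈ codeC K L s δ, f ≠ 0 → 7 ≤ finrank K (LinearMap.range f) := by
      intro f hf hfn
      obtain ⟨⟨a, b⟩, rfl⟩ := (hcode f).1 hf
      have hab : a ≠ 0 ∨ b ≠ 0 := by
        by_contra hcon
        push Not at hcon
        apply hfn
        rw [hcon.1, hcon.2]
        exact map_zero (wd σ δ)
      by_contra hlt
      have h8 := hrn (wd σ δ (a, b))
      have h1lt : 1 < finrank K (LinearMap.ker (wd σ δ (a, b))) := by omega
      have hnt : Nontrivial (LinearMap.ker (wd σ δ (a, b))) :=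
        Module.nontrivial_of_finrank_pos (R := K) (by omega)
      obtain ⟨x, hx⟩ := exists_ne (0 : LinearMap.ker (wd σ δ (a, b)))
      obtain ⟨y, hy⟩ := exists_linearIndependent_pair_of_one_lt_finrank h1lt hx
      have hli : LinearIndependent K ![(x : L), (y : L)] := by
        have h := hy.map' (LinearMap.ker (wd σ δ (a, b))).subtype
          (Submodule.ker_subtype _)
        have e : (![(x : L), (y : L)] : Fin 2 → L) =
            (LinearMap.ker (wd σ δ (a, b))).subtype ∘ ![x, y] := by
          ext i
          fin_cases i <;> rfl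
        rw [e]
        exact h
      refine H a b hab x y ?_ ?_ hli
      · have := x.2
        rw [LinearMap.mem_ker, wd_apply] at this
        exact this
      · have := y.2
        rw [LinearMap.mem_ker, wd_apply] at this
        exact this
    refine ⟨7, ⟨wd σ δ (-(1 + δ), 1), (hcode _).2 ⟨_, rfl⟩, ?_, ?_⟩, hrank, ?_⟩
    · intro h
      have : ((-(1 + δ), 1) : L × L) = 0 := hinj (by rw [h, map_zero])
      rw [Prod.mk_eq_zero] at this
      exact one_ne_zero this.2
    · have hne : wd σ δ (-(1 + δ), 1) ≠ 0 := by
        intro h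
        have : ((-(1 + δ), 1) : L × L) = 0 := hinj (by rw [h, map_zero])
        rw [Prod.mk_eq_zero] at this
        exact one_ne_zero this.2
      have h7 := hrank _ ((hcode _).2 ⟨(-(1 + δ), 1), rfl⟩) hne
      have h8 := hrn (wd σ δ (-(1 + δ), 1))
      have h1k : (1 : L) ∈ LinearMap.ker (wd σ δ (-(1 + δ), 1)) := by
        rw [LinearMap.mem_ker, wd_apply]
        simp only [map_one]
        ring
      have hpos : 0 < finrank K (LinearMap.ker (wd σ δ (-(1 + δ), 1))) := by
        rw [Module.finrank_pos_iff]
        exact ⟨⟨⟨1, h1k⟩, 0, fun h => one_ne_zero (congrArg Subtype.val h)⟩⟩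
      omega
    · rw [hdim, hc.rank]

end Q259.MR_COD
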