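import Mathlib

/-!
Kernel computation of the number of primes in an interval `(a, a + l]`, by greatest common
divisors with the product `P` of the primes below `L`, for `L ≤ a + 1` and `a + l < L ^ 2`.
-/

namespace Pool.Agent.Q259.PB

/-- `f k` holds for all `k < n`. -/
def allBelow (f : ℕ → Bool) (n : ℕ) : Bool :=
  Nat.rec (motive := fun _ => Bool) true (fun k ih => and (f k) ih) n

theorem allBelow_spec {f : ℕ → Bool} {n : ℕ} (h : allBelow f n = true) :
    ∀ k < n, f k = true := by
  induction n with
  | zero => intro k hk; omega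
  | succ n ih =>
    have h' : and (f n) (allBelow f n) = true := h
    rw [Bool.and_eq_true] at h'
    intro k hk
    rcases Nat.lt_succ_iff_lt_or_eq.1 hk with h1 | h1
    · exact ih h'.2 k h1
    · rw [h1]; exact h'.1

/-- the prime factors of `P` are the primes below `L` -/
structure Base (P L : ℕ) : Prop where
  small : ∀ d, 2 ≤ d → d < L → Nat.gcd d P ≠ 1
  large : ∀ q, q.Prime → q ∣ P → q < L

theorem Base.mk' {P L : ℕ} (hL : 2 ≤ L)
    (h1 : allBelow (fun k => not (Nat.beq (Nat.gcd (k + 2) P) 1)) (L - 2) = true)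
    (h2 : Nat.beq (Nat.mod (Nat.factorial (L - 1)) P) 0 = true) : Base P L := by
  constructor
  · intro d hd1 hd2
    have h3 := allBelow_spec h1 (d - 2) (by omega)
    have h4 : d - 2 + 2 = d := by omega
    rw [h4] at h3
    intro h5
    rw [h5] at h3
    exact absurd h3 (by decide)
  · intro q hq hqP
    have h3 : P ∣ Nat.factorial (L - 1) := Nat.dvd_of_mod_eq_zero (Nat.eq_of_beq_eq_true h2)
    have h4 := (Nat.Prime.dvd_factorial hq).1 (hqP.trans h3)
    omega

theorem Base.prime_iff {P L : ℕ} (B : Base P L) {n : ℕ} (h0 : 2 ≤ n) (h1 : L ≤ n) (h2 : n < L ^ 2) :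
    n.Prime ↔ Nat.gcd n P = 1 := by
  constructor
  · intro hp
    by_contra h
    have h3 : n ∣ P := by
      rcases (Nat.dvd_prime hp).1 (Nat.gcd_dvd_left n P) with h4 | h4
      · exact absurd h4 h
      · rw [← h4]; exact Nat.gcd_dvd_right n P
    have := B.large n hp h3
    omega
  · intro hg
    by_contra hp
    have h3 := Nat.minFac_sq_le_self (by omega) hp
    have h4 : n.minFac < L := by
      by_contra h5
      have h6 := Nat.pow_le_pow_left (show L ≤ n.minFac by omega) 2
      omega
    have h5 := (Nat.minFac_prime (show n ≠ 1 by omega)).two_le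
    have h6 := B.small _ h5 h4
    apply h6
    have h7 : Nat.gcd n.minFac P ∣ Nat.gcd n P :=
      Nat.gcd_dvd_gcd_of_dvd_left _ (Nat.minFac_dvd n)
    rw [hg] at h7
    exact Nat.dvd_one.1 h7

/-- the number of integers in `(a, a + l]` prime to `P` -/
def cnt (P a l : ℕ) : ℕ :=
  Nat.rec (motive := fun _ => ℕ) 0
    (fun k ih => cond (Nat.beq (Nat.gcd (Nat.succ (Nat.add a k)) P) 1) (Nat.succ ih) ih) l

theorem Base.cnt_spec {P L : ℕ} (B : Base P L) (hL : 2 ≤ L) {a l : ℕ} (ha : L ≤ a + 1)
    (hl : a + l < L ^ 2) :
    Nat.primeCounting (a + l) = Nat.primeCounting a + cnt P a l := by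
  induction l with
  | zero => rfl
  | succ l ih =>
    have ih := ih (by omega)
    have h1 : Nat.primeCounting (a + (l + 1)) = Nat.primeCounting (a + l) +
        if (a + l + 1).Prime then 1 else 0 := by
      unfold Nat.primeCounting Nat.primeCounting'
      rw [show a + (l + 1) + 1 = (a + l + 1) + 1 by ring, Nat.count_succ]
    rw [h1, ih]
    have h2 : cnt P a (l + 1) =
        cond (Nat.beq (Nat.gcd (a + l + 1) P) 1) (Nat.succ (cnt P a l)) (cnt P a l) := rfl
    rw [h2]
    by_cases h3 : (a + l + 1).Prime
    · have h4 := (B.prime_iff (by omega) (by omega) (by omega)).1 h3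
      rw [if_pos h3, h4]
      rfl
    · have h4 : Nat.gcd (a + l + 1) P ≠ 1 :=
        fun h5 => h3 ((B.prime_iff (by omega) (by omega) (by omega)).2 h5)
      have h5 : Nat.beq (Nat.gcd (a + l + 1) P) 1 = false := by
        cases h6 : Nat.beq (Nat.gcd (a + l + 1) P) 1 with
        | false => rfl
        | true => exact absurd (Nat.eq_of_beq_eq_true h6) h4
      rw [if_neg h3, h5]
      rfl

/-- the product of the primes up to `13` -/
def P13 : ℕ := 30030

theorem base13 : Base P13 17 := Base.mk' (by norm_num) (by decide +kernel) (by decide +kernel)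

/-- the product of the primes up to `283` -/
def P283 : ℕ := 0xb107cff9bc81dc39662bc077f2dddc1f2345cf31e6af31a1a22b01c5c88488d3ccdc6b893c7a4b6171ad475e801db52542

set_option maxRecDepth 100000 in
theorem base283 : Base P283 287 := Base.mk' (by norm_num) (by decide +kernel) (by decide +kernel)

theorem pi16 : Nat.primeCounting 16 = 6 := by
  unfold Nat.primeCounting Nat.primeCounting'
  norm_num [Nat.count_succ]

/-- `π` between `16` and `288` -/
theorem pi_small {a : ℕ} (h1 : 16 ≤ a) (h2 : a < 289) :
    Nat.primeCounting a = 6 + cnt P13 16 (a - 16) := by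
  have h := base13.cnt_spec (by norm_num) (a := 16) (l := a - 16) (by norm_num) (by omega)
  rw [show 16 + (a - 16) = a by omega, pi16] at h
  exact h

theorem pi286 : Nat.primeCounting 286 = 61 := by
  rw [pi_small (by norm_num) (by norm_num)]
  decide +kernel

/-- `π` between `286` and `287 ^ 2` -/
theorem pi_large {a l : ℕ} (h1 : 286 ≤ a) (h2 : a + l < 82369) :
    Nat.primeCounting (a + l) = Nat.primeCounting a + cnt P283 a l :=
  base283.cnt_spec (by norm_num) (by omega) (by omega)

end Pool.Agent.Q259.PB
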